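import Mathlib

set_option autoImplicit false
open scoped Classical
open Filter Topology OnePoint

namespace Pool.Agent.H.MP_1c6fe5_an

abbrev K : Type := OnePoint ℕ

def S : Type := C(K, K)

instance : Semigroup S where
  mul s t := ContinuousMap.comp s t
  mul_assoc _ _ _ := rfl

def S.m (s : S) : C(K, K) := s

def c (u : K) : S := ContinuousMap.const K u

theorem mul_c (s : S) (u : K) : s * c u = c (s.m u) := rfl

noncomputable def st (x y : K) (n : ℕ) : S :=
  continuousMapMkNat (fun m => if m < n then x else y) y (by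
    apply tendsto_const_nhds.congr'
    filter_upwards [eventually_ge_atTop n] with m hm
    rw [if_neg (not_lt.2 hm)])

theorem st_apply (x y : K) (n m : ℕ) : (st x y n).m (m : ℕ) = if m < n then x else y := rfl

noncomputable def ev (t : S) : lp (fun _ : S => ℝ) ⊤ →L[ℝ] ℝ :=
  LinearMap.mkContinuous ⟨⟨fun g => g t, fun _ _ => rfl⟩, fun _ _ => rfl⟩ 1
    (fun g => by rw [one_mul]; exact lp.norm_apply_le_norm (by simp) g t)

theorem ev_norm (t : S) : ‖ev t‖ ≤ 1 := LinearMap.mkContinuous_norm_le _ zero_le_one _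

theorem const_of_wap (f : S → ℝ) (F : lp (fun _ : S => ℝ) ⊤) (hF : ∀ t, F t = f t)
    (hK : IsCompact (closure (toWeakSpace ℝ (lp (fun _ : S => ℝ) ⊤) ''
      {G : lp (fun _ : S => ℝ) ⊤ | ∃ s : S, ∀ t : S, G t = f (s * t)}))) (x y : K) :
    f (c x) = f (c y) := by
  let G : ℕ → lp (fun _ : S => ℝ) ⊤ := fun n => ⟨fun t => f (st x y n * t), memℓp_infty ⟨‖F‖, by
    rintro _ ⟨t, rfl⟩
    dsimp only
    rw [← hF]
    exact lp.norm_apply_le_norm (by simp) F _⟩⟩
  have hG : ∀ n m : ℕ, G n (c (m : ℕ)) = if m < n then f (c x) else f (c y) := by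
    intro n m
    show f (st x y n * c (m : ℕ)) = _
    rw [mul_c, st_apply]
    split_ifs <;> rfl
  obtain ⟨g, -, hg⟩ := hK.ultrafilter_le_nhds' ((hyperfilter ℕ).map (fun n => toWeakSpace ℝ _ (G n)))
    (by
      rw [Ultrafilter.mem_map]
      exact Filter.univ_mem' fun n => subset_closure ⟨G n, ⟨_, fun t => rfl⟩, rfl⟩)
  have hg' : ∀ φ : lp (fun _ : S => ℝ) ⊤ →L[ℝ] ℝ,
      Tendsto (fun n => φ (G n)) (hyperfilter ℕ) (𝓝 (φ g)) := fun φ =>
    ((WeakBilin.eval_continuous (topDualPairing ℝ (lp (fun _ : S => ℝ) ⊤)).flip φ).tendsto g).comp hg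
  obtain ⟨Λ, -, hΛ⟩ := (WeakDual.isCompact_closedBall (0 : StrongDual ℝ (lp (fun _ : S => ℝ) ⊤))
    1).ultrafilter_le_nhds' ((hyperfilter ℕ).map
      (fun m : ℕ => StrongDual.toWeakDual (ev (c (m : ℕ))))) (by
      rw [Ultrafilter.mem_map]
      exact Filter.univ_mem' fun n => mem_closedBall_zero_iff.2 (ev_norm _))
  have hΛ' : ∀ h : lp (fun _ : S => ℝ) ⊤,
      Tendsto (fun m : ℕ => h (c (m : ℕ))) (hyperfilter ℕ) (𝓝 (Λ h)) := fun h =>
    ((WeakDual.eval_continuous h).tendsto Λ).comp hΛ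
  have hc : (hyperfilter ℕ : Filter ℕ) ≤ atTop := Nat.hyperfilter_le_atTop
  have a1 : ∀ m : ℕ, ev (c (m : ℕ)) g = f (c x) := by
    intro m
    refine tendsto_nhds_unique (hg' _) (tendsto_const_nhds.congr' ?_)
    filter_upwards [hc (eventually_gt_atTop m)] with n hn
    exact ((hG n m).trans (if_pos hn)).symm
  have a2 : ∀ n, Λ (G n) = f (c y) := by
    intro n
    refine tendsto_nhds_unique (hΛ' _) (tendsto_const_nhds.congr' ?_)
    filter_upwards [hc (eventually_ge_atTop n)] with m hm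
    exact ((hG n m).trans (if_neg (not_lt.2 hm))).symm
  have a3 : Λ g = f (c x) :=
    tendsto_nhds_unique (hΛ' g) (tendsto_const_nhds.congr fun m => (a1 m).symm)
  have a4 : Λ g = f (c y) :=
    tendsto_nhds_unique (hg' (WeakDual.toStrongDual Λ)) (tendsto_const_nhds.congr fun m => (a2 m).symm)
  rw [← a3, a4]

noncomputable def e (n : ℕ) : C(K, ℝ) :=
  continuousMapMkNat (fun m => if m = n then 1 else 0) 0 (by
    apply tendsto_const_nhds.congr'
    filter_upwards [eventually_gt_atTop n] with m hm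
    rw [if_neg hm.ne'])

theorem sum_e (F : Finset ℕ) (a : ℕ → ℝ) :
    (∑ n ∈ F, a n • e n) ∞ = 0 ∧ ∀ m : ℕ, (∑ n ∈ F, a n • e n) m = if m ∈ F then a m else 0 := by
  have h1 : ∀ n, e n ∞ = 0 := fun n => rfl
  have h2 : ∀ n m : ℕ, e n m = if m = n then 1 else 0 := fun n m => rfl
  simp [ContinuousMap.sum_apply, h1, h2]

theorem summ (φ : StrongDual ℝ C(K, ℝ)) : Summable fun n => |φ (e n)| := by
  apply summable_of_sum_le (c := ‖φ‖) (fun x => abs_nonneg _)
  intro F
  have h1 : ∑ x ∈ F, |φ (e x)| = φ (∑ x ∈ F, (SignType.sign (φ (e x)) : ℝ) • e x) := by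
    rw [map_sum]
    apply Finset.sum_congr rfl
    intro x _
    rw [_root_.map_smul, smul_eq_mul, sign_mul_self]
  have h2 : ‖∑ x ∈ F, (SignType.sign (φ (e x)) : ℝ) • e x‖ ≤ 1 := by
    rw [ContinuousMap.norm_le _ zero_le_one]
    intro t
    induction t using OnePoint.rec with
    | infty => rw [(sum_e _ _).1]; simp
    | coe m =>
      rw [(sum_e _ _).2]
      split_ifs
      · generalize SignType.sign (φ (e m)) = a
        cases a <;> simp
      · simp
  rw [h1]
  calc _ ≤ ‖φ (∑ x ∈ F, (SignType.sign (φ (e x)) : ℝ) • e x)‖ := le_abs_self _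
    _ ≤ ‖φ‖ * 1 := (φ.le_opNorm _).trans (mul_le_mul_of_nonneg_left h2 (norm_nonneg _))
    _ = _ := mul_one _

noncomputable def δ (x : K) : StrongDual ℝ C(K, ℝ) := ContinuousMap.evalCLM ℝ x

theorem δ_norm (x : K) : ‖δ x‖ ≤ 1 :=
  ContinuousLinearMap.opNorm_le_bound _ zero_le_one fun g => by
    rw [one_mul]; exact g.norm_coe_le_norm x

theorem expand (g : C(K, ℝ)) : Tendsto (fun N => ∑ n ∈ Finset.range N, (g n - g ∞) • e n) atTop
    (𝓝 (g - g ∞ • 1)) := by
  rw [Metric.tendsto_atTop]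
  intro ε hε
  obtain ⟨N, hN⟩ := Metric.tendsto_atTop.1 ((continuous_iff_from_nat g).1 g.continuous) (ε / 2)
    (half_pos hε)
  refine ⟨N, fun n hn => lt_of_le_of_lt ?_ (half_lt_self hε)⟩
  rw [ContinuousMap.dist_le (half_pos hε).le]
  intro t
  induction t using OnePoint.rec with
  | infty => rw [(sum_e _ _).1]; simp [(half_pos hε).le]
  | coe m =>
    rw [(sum_e _ _).2]
    split_ifs with h
    · simp [(half_pos hε).le]
    · have := hN m (by rw [Finset.mem_range] at h; omega)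
      rw [Real.dist_eq] at this ⊢
      simpa [abs_sub_comm] using this.le

theorem sep_gen {X : Type} [NormedAddCommGroup X] [NormedSpace ℝ X] (δ : ℕ → StrongDual ℝ X)
    (d : StrongDual ℝ X) (hδ : ∀ n, ‖δ n‖ ≤ 1) (hd : ‖d‖ ≤ 1) (e : ℕ → X) (o : X)
    (summ : ∀ φ : StrongDual ℝ X, Summable fun n => |φ (e n)|)
    (expand : ∀ g : X, Tendsto (fun N => ∑ n ∈ Finset.range N, (δ n g - d g) • e n) atTop
      (𝓝 (g - d g • o))) (C : Set (StrongDual ℝ X)) : TopologicalSpace.IsSeparable C := by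
  have h1 := (((Set.countable_range δ).insert d).isSeparable.span (R := ℝ)).closure
  refine h1.mono fun φ _ => ?_
  have hs : Summable fun n : ℕ => φ (e n) • (δ n - d) := by
    refine Summable.of_norm_bounded ((summ φ).mul_right 2) fun n => ?_
    rw [norm_smul]
    refine mul_le_mul_of_nonneg_left ((norm_sub_le _ _).trans ?_) (norm_nonneg _)
    linarith [hδ n]
  have h2 := (hs.hasSum.tendsto_sum_nat).const_add (φ o • d)
  have h3 : φ o • d + ∑' n : ℕ, φ (e n) • (δ n - d) = φ := by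
    ext g
    have a1 := ((ContinuousLinearMap.apply ℝ ℝ g).continuous.tendsto _).comp h2
    have a2 := ((φ.continuous.tendsto _).comp (expand g)).const_add (φ o * d g)
    have a3 : φ o * d g + φ (g - d g • o) = φ g := by simp [mul_comm]
    rw [a3] at a2
    refine tendsto_nhds_unique a1 (a2.congr fun N => ?_)
    simp [mul_comm]
  rw [h3] at h2
  refine mem_closure_of_tendsto h2 (Eventually.of_forall fun N => ?_)
  have hm : ∀ n, δ n ∈ Submodule.span ℝ (insert d (Set.range δ)) := fun x =>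
    Submodule.subset_span (Or.inr ⟨x, rfl⟩)
  have hm' : d ∈ Submodule.span ℝ (insert d (Set.range δ)) := Submodule.subset_span (Or.inl rfl)
  exact Submodule.add_mem _ (Submodule.smul_mem _ _ hm')
    (Submodule.sum_mem _ fun n _ => Submodule.smul_mem _ _ (Submodule.sub_mem _ (hm _) hm'))

theorem states {X : Type} [NormedAddCommGroup X] [NormedSpace ℝ X] (o : X) :
    Convex ℝ {φ : StrongDual ℝ X | ‖φ‖ ≤ 1 ∧ φ o = 1} ∧
    IsCompact (StrongDual.toWeakDual '' {φ : StrongDual ℝ X | ‖φ‖ ≤ 1 ∧ φ o = 1}) := by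
  constructor
  · intro φ h ψ h' a b ha hb hab
    refine ⟨?_, ?_⟩
    · exact mem_closedBall_zero_iff.1 (convex_closedBall (0 : StrongDual ℝ X) 1
        (mem_closedBall_zero_iff.2 h.1) (mem_closedBall_zero_iff.2 h'.1) ha hb hab)
    · simp [h.2, h'.2, hab]
  · have := (WeakDual.isCompact_closedBall (0 : StrongDual ℝ X) 1).inter_right
      (isClosed_eq (WeakDual.eval_continuous o) (continuous_const (y := (1 : ℝ))))
    convert! this using 1
    ext ω
    constructor
    · rintro ⟨φ, h, rfl⟩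
      exact ⟨mem_closedBall_zero_iff.2 h.1, h.2⟩
    · rintro ⟨h1, h2⟩
      exact ⟨WeakDual.toStrongDual ω, ⟨mem_closedBall_zero_iff.1 h1, h2⟩, rfl⟩

noncomputable def T (s : S) (φ : StrongDual ℝ C(K, ℝ)) : StrongDual ℝ C(K, ℝ) :=
  φ.comp (ContinuousMap.compCLM ℝ ℝ s.m)

theorem T_apply (s : S) (φ : StrongDual ℝ C(K, ℝ)) (g : C(K, ℝ)) : T s φ g = φ (g.comp s.m) := rfl

theorem T_norm (s : S) (φ : StrongDual ℝ C(K, ℝ)) : ‖T s φ‖ ≤ ‖φ‖ :=
  ContinuousLinearMap.opNorm_le_bound _ φ.opNorm_nonneg fun g => by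
    rw [T_apply]
    refine (φ.le_opNorm _).trans (mul_le_mul_of_nonneg_left ?_ φ.opNorm_nonneg)
    exact (ContinuousMap.norm_le _ (norm_nonneg _)).2 fun x => g.norm_coe_le_norm _

end Pool.Agent.H.MP_1c6fe5_an
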